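import Mathlib
import Pool.Agent.Y567.TC.Cod
import Pool.Agent.Y567.TC.Dual

/-!
# Conjugacy of transitive homeomorphisms of the Cantor set is a maximal `S_∞`-action

Topological conjugacy on the space `𝒯` of the topologically transitive homeomorphisms of the Cantor
set `C = 2^ℕ` is Borel bi-reducible with the maximal `S_∞`-action (Q2 of the problem: yes).
-/

set_option autoImplicit false

open Set Topology

namespace Pool.Agent.Results.MP_f7d718_lc.TransitiveCantor

/-- The Cantor set. -/
abbrev C : Type := ℕ → Bool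

/-- `E ≤_B F`. -/
def BorelReducible {X Y : Type} [MeasurableSpace X] [MeasurableSpace Y] (E : X → X → Prop)
    (F : Y → Y → Prop) : Prop :=
  ∃ f : X → Y, Measurable f ∧ ∀ x x' : X, E x x' ↔ F (f x) (f x')

/-- The orbit equivalence relation of an action of `S_∞`. -/
def Orb (Y : Type) [MulAction (Equiv.Perm ℕ) Y] (y y' : Y) : Prop :=
  ∃ σ : Equiv.Perm ℕ, σ • y = y'

/-- `S_∞` acts on `Y` in a Borel way: the action is a Borel map `S_∞ × Y → Y`, where `S_∞` carries the
Borel structure of the topology of pointwise convergence. -/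
def BorelAction (Y : Type) [MeasurableSpace Y] [MulAction (Equiv.Perm ℕ) Y] : Prop :=
  @Measurable (Equiv.Perm ℕ × Y) Y
    (@Prod.instMeasurableSpace _ _ (@borel (Equiv.Perm ℕ) (TopologicalSpace.induced
      (fun (σ : Equiv.Perm ℕ) (n : ℕ) => σ n) Pi.topologicalSpace)) _) _ (fun p => p.1 • p.2)

/-- A maximal `S_∞`-action: a Borel action of `S_∞` on the standard Borel space `Y` to whose orbit
equivalence relation the orbit equivalence relation of every Borel `S_∞`-action on a standard Borel
space reduces. -/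
def MaximalAction (Y : Type) [MeasurableSpace Y] [MulAction (Equiv.Perm ℕ) Y] : Prop :=
  BorelAction Y ∧ ∀ (Z : Type) [MeasurableSpace Z] [StandardBorelSpace Z]
    [MulAction (Equiv.Perm ℕ) Z], BorelAction Z → BorelReducible (Orb Z) (Orb Y)

/-- The topology of uniform convergence on `Homeo(C)`. -/
@[reducible] def homeoTop : TopologicalSpace (C ≃ₜ C) :=
  TopologicalSpace.induced (fun h : C ≃ₜ C => (⟨h, h.continuous⟩ : C(C, C)))
    ContinuousMap.compactOpen

/-- The space of the topologically transitive homeomorphisms of the Cantor set. -/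
structure Trans where
  /-- the homeomorphism -/
  map : C ≃ₜ C
  /-- topological transitivity -/
  trans : ∀ U V : Set C, IsOpen U → IsOpen V → U.Nonempty → V.Nonempty →
    ∃ n : ℤ, ((⇑(map ^ n) '' U) ∩ V).Nonempty

/-- The topology of `Trans` as a subspace of `Homeo(C)`. -/
instance : TopologicalSpace Trans := TopologicalSpace.induced Trans.map homeoTop

instance : MeasurableSpace Trans := borel Trans

instance : BorelSpace Trans := ⟨rfl⟩

/-- Topological conjugacy. -/
def Conj (S T : Trans) : Prop := ∃ h : C ≃ₜ C, S.map = h * T.map * h⁻¹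

lemma conj_iff (S T : Trans) : Conj S T ↔ ∃ h : C ≃ₜ C, ∀ x, h (S.map x) = T.map (h x) := by
  constructor
  · rintro ⟨h, hh⟩
    refine ⟨h.symm, fun x => ?_⟩
    rw [hh]
    show h.symm (h (T.map (h.symm x))) = _
    rw [h.symm_apply_apply]
  · rintro ⟨h, hh⟩
    refine ⟨h.symm, Homeomorph.ext fun x => ?_⟩
    show S.map x = h.symm (T.map (h x))
    rw [← hh, h.symm_apply_apply]

lemma borel_trans : (borel Trans) = MeasurableSpace.comap Trans.map (@borel (C ≃ₜ C) homeoTop) :=
  @borel_comap Trans (C ≃ₜ C) Trans.map homeoTop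

lemma measurable_val : @Measurable Trans (C ≃ₜ C) _ (@borel _ homeoTop) Trans.map :=
  (@measurable_iff_comap_le _ _ _ (@borel _ homeoTop) _).2 borel_trans.ge

lemma measurable_mk {Y : Type} [MeasurableSpace Y] (f : Y → Trans)
    (hf : @Measurable Y (C ≃ₜ C) _ (@borel _ homeoTop) (fun y => (f y).map)) : Measurable f := by
  rw [measurable_iff_comap_le] at hf ⊢
  refine le_trans (le_of_eq ?_) hf
  refine (congrArg (MeasurableSpace.comap f) borel_trans).trans ?_
  rw [MeasurableSpace.comap_comp]
  rfl

/-- Every Borel action of `S_∞` reduces to conjugacy of transitive homeomorphisms. -/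
theorem action_le (Y : Type) [MeasurableSpace Y] [StandardBorelSpace Y]
    [MulAction (Equiv.Perm ℕ) Y] (hY : BorelAction Y) : BorelReducible (Orb Y) Conj := by
  obtain ⟨θ, h1, h2, h3⟩ := Pool.Agent.Y567.TC.action_reducible (Z := Y) hY
  exact ⟨fun y => ⟨θ y, h2 y⟩, measurable_mk _ h1,
    fun y y' => (h3 y y').trans (conj_iff ⟨θ y, h2 y⟩ ⟨θ y', h2 y'⟩).symm⟩

/-- Conjugacy of transitive homeomorphisms reduces to a Borel action of `S_∞`. -/
theorem le_action : ∃ (Y : Type) (_ : MeasurableSpace Y) (_ : StandardBorelSpace Y)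
    (_ : MulAction (Equiv.Perm ℕ) Y), BorelAction Y ∧ BorelReducible Conj (Orb Y) := by
  obtain ⟨e⟩ := Pool.Agent.Y567.TC.exists_enum
  refine ⟨Pool.Agent.Y567.TC.GS, inferInstance, inferInstance, inferInstance,
    Pool.Agent.Y567.TC.measurable_action, fun T => Pool.Agent.Y567.TC.rho e T.map, ?_, fun S T => ?_⟩
  · exact @Measurable.comp _ _ _ _ (@borel _ homeoTop) _ _ _ (Pool.Agent.Y567.TC.measurable_rho e)
      measurable_val
  · rw [conj_iff]
    exact Pool.Agent.Y567.TC.rho_red e S.map T.map

lemma trans_red {X Y Z : Type} [MeasurableSpace X] [MeasurableSpace Y] [MeasurableSpace Z]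
    {E : X → X → Prop} {F : Y → Y → Prop} {G : Z → Z → Prop} (h1 : BorelReducible E F)
    (h2 : BorelReducible F G) : BorelReducible E G := by
  obtain ⟨f, hf, hf2⟩ := h1
  obtain ⟨g, hg, hg2⟩ := h2
  exact ⟨g ∘ f, hg.comp hf, fun x x' => (hf2 x x').trans (hg2 _ _)⟩

/-- There is a maximal `S_∞`-action, and conjugacy of transitive homeomorphisms of the Cantor set is
Borel bi-reducible with every maximal `S_∞`-action. -/
theorem result :
    (∃ (Y : Type) (_ : MeasurableSpace Y) (_ : StandardBorelSpace Y)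
      (_ : MulAction (Equiv.Perm ℕ) Y), MaximalAction Y) ∧
    ∀ (Y : Type) [MeasurableSpace Y] [StandardBorelSpace Y] [MulAction (Equiv.Perm ℕ) Y],
      MaximalAction Y → BorelReducible (Orb Y) Conj ∧ BorelReducible Conj (Orb Y) := by
  constructor
  · obtain ⟨Y, i1, i2, i3, hY, hred⟩ := le_action
    exact ⟨Y, i1, i2, i3, hY, fun Z _ _ _ hZ => trans_red (action_le Z hZ) hred⟩
  · intro Y _ _ _ hY
    refine ⟨action_le Y hY.1, ?_⟩
    obtain ⟨Z, i1, i2, i3, hZ, hred⟩ := le_action
    exact trans_red hred (hY.2 Z hZ)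

end Pool.Agent.Results.MP_f7d718_lc.TransitiveCantor
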